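import Mathlib

set_option autoImplicit false
open MeasureTheory Set Metric

namespace Pool.Agent.H924R3

/-- The Euclidean plane. -/
abbrev E2 := EuclideanSpace ℝ (Fin 2)

/-- The point with coordinates s, p. -/
noncomputable def mk (s p : ℝ) : E2 := WithLp.toLp 2 ![s, p]

@[simp] lemma mk_zero (s p : ℝ) : mk s p 0 = s := rfl
@[simp] lemma mk_one (s p : ℝ) : mk s p 1 = p := rfl

lemma mk_eta (x : E2) : mk (x 0) (x 1) = x := by
  ext i; fin_cases i <;> rfl

lemma ext2 {x y : E2} (h0 : x 0 = y 0) (h1 : x 1 = y 1) : x = y := by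
  ext i; fin_cases i
  · exact h0
  · exact h1

lemma mk_add (s p s' p' : ℝ) : mk s p + mk s' p' = mk (s + s') (p + p') := by
  apply ext2 <;> simp [mk]

lemma mk_sub (s p s' p' : ℝ) : mk s p - mk s' p' = mk (s - s') (p - p') := by
  apply ext2 <;> simp [mk]

lemma mk_smul (c s p : ℝ) : c • mk s p = mk (c * s) (c * p) := by
  apply ext2 <;> simp [mk]

/-- The measurable equivalence of the plane with the product. -/
noncomputable def Psi : E2 ≃ᵐ ℝ × ℝ :=
  (MeasurableEquiv.toLp 2 (Fin 2 → ℝ)).symm.trans MeasurableEquiv.finTwoArrow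

lemma Psi_apply (x : E2) : Psi x = (x 0, x 1) := rfl

lemma Psi_symm_apply (s p : ℝ) : Psi.symm (s, p) = mk s p := by
  apply Psi.injective
  rw [MeasurableEquiv.apply_symm_apply, Psi_apply]; rfl

lemma Psi_mp : MeasurePreserving Psi (volume : Measure E2) (volume : Measure (ℝ × ℝ)) :=
  (EuclideanSpace.volume_preserving_symm_measurableEquiv_toLp (Fin 2)).trans
    (volume_preserving_finTwoArrow ℝ)

lemma continuous_mk : Continuous (fun q : ℝ × ℝ => mk q.1 q.2) := by
  unfold mk
  apply (PiLp.continuous_toLp 2 _).comp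
  apply continuous_pi
  intro i
  fin_cases i
  · exact continuous_fst
  · exact continuous_snd

lemma norm_sq (x : E2) : ‖x‖ ^ 2 = x 0 ^ 2 + x 1 ^ 2 := by
  rw [EuclideanSpace.norm_eq, Real.sq_sqrt (by positivity)]
  simp [Fin.sum_univ_two]

lemma volume_eq (A : Set E2) (hA : MeasurableSet A) :
    volume A = ∫⁻ p : ℝ, volume {s : ℝ | mk s p ∈ A} := by
  have h1 : volume A = volume (Psi.symm ⁻¹' A) :=
    (Psi_mp.symm.measure_preimage_equiv A).symm
  rw [h1, Measure.volume_eq_prod, Measure.prod_apply_symm (Psi.symm.measurable hA)]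
  congr 1

end Pool.Agent.H924R3
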