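import Pool.Agent.H924R3.Base

set_option autoImplicit false
open MeasureTheory Set Metric Filter Topology

namespace Pool.Agent.H924R3

/-- Half chord. -/
noncomputable def w (p : ℝ) : ℝ := Real.sqrt (1 - p ^ 2)

/-- The constant alpha. -/
noncomputable def al : ℝ := 4 / (Real.pi + 4)

/-- The Cheeger constant of the stadium. -/
noncomputable def lam : ℝ := 2 - al

lemma al_pos : 0 < al := by unfold al; positivity

lemma al_lt_one : al < 1 := by
  unfold al
  rw [div_lt_one (by positivity)]
  linarith [Real.pi_pos]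

lemma w_nonneg (p : ℝ) : 0 ≤ w p := Real.sqrt_nonneg _

lemma w_le_one (p : ℝ) : w p ≤ 1 := by
  unfold w
  rw [Real.sqrt_le_one]
  nlinarith [sq_nonneg p]

lemma w_sq {p : ℝ} (hp : |p| ≤ 1) : w p ^ 2 = 1 - p ^ 2 := by
  apply Real.sq_sqrt
  have : p ^ 2 ≤ 1 := by
    rw [← sq_abs]; nlinarith [abs_nonneg p]
  linarith

lemma w_eq_zero {p : ℝ} (hp : 1 ≤ |p|) : w p = 0 := by
  apply Real.sqrt_eq_zero_of_nonpos
  have : 1 ≤ p ^ 2 := by
    rw [← sq_abs]; nlinarith [abs_nonneg p]
  linarith

lemma continuous_w : Continuous w := by unfold w; fun_prop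

lemma w_neg (p : ℝ) : w (-p) = w p := by unfold w; simp

/-- Clamp function. -/
noncomputable def cl (a b s : ℝ) : ℝ := max a (min s b)

lemma cl_lip (a b s t : ℝ) : |cl a b s - cl a b t| ≤ |s - t| := by
  unfold cl
  have h1 : |max a (min s b) - max a (min t b)| ≤ |min s b - min t b| := by
    have := abs_max_sub_max_le_max a (min s b) a (min t b)
    simpa using this
  have h2 : |min s b - min t b| ≤ |s - t| := by
    have := abs_min_sub_min_le_max s b t b
    simpa using this
  exact h1.trans h2

lemma cl_mem {a b : ℝ} (hab : a ≤ b) (s : ℝ) : a ≤ cl a b s ∧ cl a b s ≤ b := by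
  unfold cl
  refine ⟨le_max_left _ _, max_le hab (min_le_right _ _)⟩

lemma cl_of_mem {a b s : ℝ} (h1 : a ≤ s) (h2 : s ≤ b) : cl a b s = s := by
  unfold cl
  rw [min_eq_left h2, max_eq_right h1]

lemma cl_of_le {a b s : ℝ} (hab : a ≤ b) (h1 : s ≤ a) : cl a b s = a := by
  unfold cl
  rw [min_eq_left (h1.trans hab), max_eq_left h1]

lemma cl_of_ge {a b s : ℝ} (hab : a ≤ b) (h1 : b ≤ s) : cl a b s = b := by
  unfold cl
  rw [min_eq_right h1, max_eq_right hab]

lemma continuous_cl {X : Type*} [TopologicalSpace X] {a b s : X → ℝ} (ha : Continuous a)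
    (hb : Continuous b) (hs : Continuous s) : Continuous (fun x => cl (a x) (b x) (s x)) := by
  unfold cl; fun_prop

open Classical in
lemma cl_hasDerivAt {a b s : ℝ} (hab : a ≤ b) (h1 : s ≠ a) (h2 : s ≠ b) :
    HasDerivAt (cl a b) (if a ≤ s ∧ s ≤ b then 1 else 0) s := by
  rcases lt_or_gt_of_ne h1 with h | h
  · rw [if_neg (by rintro ⟨h3, _⟩; linarith)]
    have : cl a b =ᶠ[𝓝 s] fun _ => a := by
      filter_upwards [Iio_mem_nhds h] with t ht
      exact cl_of_le hab (le_of_lt ht)
    exact (hasDerivAt_const s a).congr_of_eventuallyEq this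
  · rcases lt_or_gt_of_ne h2 with h' | h'
    · rw [if_pos ⟨h.le, h'.le⟩]
      have : cl a b =ᶠ[𝓝 s] fun t => t := by
        filter_upwards [Ioo_mem_nhds h h'] with t ht
        exact cl_of_mem ht.1.le ht.2.le
      exact (hasDerivAt_id s).congr_of_eventuallyEq this
    · rw [if_neg (by rintro ⟨_, h3⟩; linarith)]
      have : cl a b =ᶠ[𝓝 s] fun _ => b := by
        filter_upwards [Ioi_mem_nhds h'] with t ht
        exact cl_of_ge hab (le_of_lt ht)
      exact (hasDerivAt_const s b).congr_of_eventuallyEq this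

/-- Vertical profile in the middle part. -/
noncomputable def B (y : ℝ) : ℝ := ∫ t in (0 : ℝ)..y, (lam - al * w t)

lemma continuous_integrand : Continuous (fun t => lam - al * w t) := by
  have := continuous_w
  fun_prop

lemma B_hasDerivAt (y : ℝ) : HasDerivAt B (lam - al * w y) y := by
  apply intervalIntegral.integral_hasDerivAt_right
    (continuous_integrand.intervalIntegrable _ _)
    (continuous_integrand.stronglyMeasurableAtFilter _ _)
    continuous_integrand.continuousAt

lemma integrand_nonneg (y : ℝ) : 0 ≤ lam - al * w y := by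
  have h1 := al_pos; have h2 := al_lt_one; have h3 := w_le_one y; have h4 := w_nonneg y
  unfold lam
  nlinarith

lemma integrand_le (y : ℝ) : lam - al * w y ≤ 2 := by
  have h1 := al_pos; have h4 := w_nonneg y
  unfold lam
  nlinarith

lemma integral_w01 : ∫ t in (0 : ℝ)..1, w t = Real.pi / 4 := by
  have h1 : ∫ t in (-1 : ℝ)..1, w t = Real.pi / 2 := integral_sqrt_one_sub_sq
  have h2 : ∫ t in (-1 : ℝ)..0, w t = ∫ t in (0 : ℝ)..1, w t := by
    have := intervalIntegral.integral_comp_neg (a := (0:ℝ)) (b := 1) w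
    simp only [w_neg, neg_zero] at this
    exact this.symm
  have h3 := intervalIntegral.integral_add_adjacent_intervals
    (continuous_w.intervalIntegrable (μ := volume) (-1) 0) (continuous_w.intervalIntegrable 0 1)
  rw [h1, h2] at h3
  linarith

lemma B_one : B 1 = 1 := by
  unfold B
  have hc : Continuous (fun t => al * w t) := continuous_w.const_mul al
  rw [intervalIntegral.integral_sub (by simp) (hc.intervalIntegrable _ _)]
  rw [intervalIntegral.integral_const, intervalIntegral.integral_const_mul, integral_w01]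
  unfold lam al
  have h0 : Real.pi + 4 ≠ 0 := by positivity
  simp only [sub_zero, smul_eq_mul, one_mul]
  field_simp
  ring

lemma B_neg (y : ℝ) : B (-y) = - B y := by
  unfold B
  have := intervalIntegral.integral_comp_neg (a := (0:ℝ)) (b := y) (fun t => lam - al * w t)
  simp only [w_neg, neg_zero] at this
  rw [this, intervalIntegral.integral_symm]

lemma B_nonneg {y : ℝ} (hy : 0 ≤ y) : 0 ≤ B y := by
  unfold B
  apply intervalIntegral.integral_nonneg hy
  intro u _
  exact integrand_nonneg u

lemma w_anti {s t : ℝ} (hs : 0 ≤ s) (hst : s ≤ t) : w t ≤ w s := by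
  unfold w
  apply Real.sqrt_le_sqrt
  nlinarith

lemma B_le {y : ℝ} (hy : 0 ≤ y) (hy1 : y ≤ 1) : B y ≤ y := by
  by_cases h : lam - al * w y ≤ 1
  · -- integrand at most one up to y
    have : B y ≤ ∫ t in (0 : ℝ)..y, (1 : ℝ) := by
      unfold B
      apply intervalIntegral.integral_mono_on hy (continuous_integrand.intervalIntegrable _ _)
        (by simp)
      intro t ht
      have := w_anti ht.1 ht.2
      have h1 := al_pos
      nlinarith
    simpa using this
  · push Not at h
    have h2 : B 1 = B y + ∫ t in y..1, (lam - al * w t) := by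
      unfold B
      rw [intervalIntegral.integral_add_adjacent_intervals
        (continuous_integrand.intervalIntegrable _ _) (continuous_integrand.intervalIntegrable _ _)]
    have h3 : ∫ t in y..1, (1 : ℝ) ≤ ∫ t in y..1, (lam - al * w t) := by
      apply intervalIntegral.integral_mono_on hy1 (by simp)
        (continuous_integrand.intervalIntegrable _ _)
      intro t ht
      have := w_anti hy ht.1
      have h1 := al_pos
      nlinarith
    rw [B_one] at h2
    simp at h3
    linarith

lemma B_abs_le {y : ℝ} (hy : |y| ≤ 1) : |B y| ≤ |y| := by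
  rcases le_total 0 y with h | h
  · rw [abs_of_nonneg h] at *
    rw [abs_of_nonneg (B_nonneg h)]
    exact B_le h hy
  · rw [abs_of_nonpos h] at *
    have h1 := B_nonneg (y := -y) (by linarith)
    have h2 := B_le (y := -y) (by linarith) hy
    rw [B_neg] at h1 h2
    rw [abs_of_nonpos (by linarith)]
    exact h2

lemma B_lip (a b : ℝ) : |B a - B b| ≤ 2 * |a - b| := by
  have h : B a - B b = ∫ t in b..a, (lam - al * w t) := by
    unfold B
    rw [intervalIntegral.integral_interval_sub_left
        (continuous_integrand.intervalIntegrable _ _) (continuous_integrand.intervalIntegrable _ _)]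
  rw [h, ← Real.norm_eq_abs]
  apply intervalIntegral.norm_integral_le_of_norm_le_const
  intro x _
  rw [Real.norm_eq_abs, abs_of_nonneg (integrand_nonneg x)]
  exact integrand_le x

/-- First component. -/
noncomputable def X1 (s p : ℝ) : ℝ :=
  al * w p * cl (-1) 1 s + (1 - al) * (cl 1 (1 + w p) s + cl (-1 - w p) (-1) s)

open Classical in
/-- Derivative of the first component. -/
noncomputable def D1 (s p : ℝ) : ℝ :=
  al * w p * (if -1 ≤ s ∧ s ≤ 1 then 1 else 0)
    + (1 - al) * ((if 1 ≤ s ∧ s ≤ 1 + w p then 1 else 0)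
      + (if -1 - w p ≤ s ∧ s ≤ -1 then 1 else 0))

open Classical in
/-- Second component. -/
noncomputable def X2 (s p : ℝ) : ℝ :=
  if |s| ≤ 1 then B (cl (-1) 1 p) else cl (-1) 1 p

open Classical in
/-- Derivative of the second component. -/
noncomputable def D2 (s p : ℝ) : ℝ :=
  if |s| ≤ 1 then (lam - al * w p) * (if -1 ≤ p ∧ p ≤ 1 then 1 else 0)
  else (if -1 ≤ p ∧ p ≤ 1 then 1 else 0)

lemma v_abs_le (s p : ℝ) : |cl 1 (1 + w p) s + cl (-1 - w p) (-1) s| ≤ w p := by
  have hw := w_nonneg p
  rcases le_total s (-1) with h | h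
  · rw [cl_of_le (by linarith) (by linarith : s ≤ 1)]
    have := cl_mem (a := -1 - w p) (b := -1) (by linarith) s
    rw [abs_le]; constructor <;> linarith [this.1, this.2]
  · rw [cl_of_ge (a := -1 - w p) (b := -1) (by linarith) h]
    have := cl_mem (a := 1) (b := 1 + w p) (by linarith) s
    rw [abs_le]; constructor <;> linarith [this.1, this.2]

lemma X1_abs_le (s p : ℝ) : |X1 s p| ≤ w p := by
  have h1 := al_pos; have h2 := al_lt_one; have hw := w_nonneg p
  have h3 := v_abs_le s p
  have h4 := cl_mem (a := -1) (b := 1) (by norm_num) s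
  have h5 : |cl (-1) 1 s| ≤ 1 := abs_le.2 h4
  unfold X1
  calc |al * w p * cl (-1) 1 s + (1 - al) * (cl 1 (1 + w p) s + cl (-1 - w p) (-1) s)|
      ≤ |al * w p * cl (-1) 1 s| + |(1 - al) * (cl 1 (1 + w p) s + cl (-1 - w p) (-1) s)| :=
        abs_add_le _ _
    _ = al * w p * |cl (-1) 1 s| + (1 - al) * |cl 1 (1 + w p) s + cl (-1 - w p) (-1) s| := by
        rw [abs_mul, abs_mul (1 - al), abs_of_nonneg (by positivity : 0 ≤ al * w p),
          abs_of_nonneg (by linarith : 0 ≤ 1 - al)]
    _ ≤ al * w p * 1 + (1 - al) * w p := by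
        gcongr
    _ = w p := by ring

lemma X2_abs_le (s p : ℝ) : |X2 s p| ≤ |cl (-1) 1 p| := by
  unfold X2
  have h4 := cl_mem (a := -1) (b := 1) (by norm_num) p
  split_ifs
  · exact B_abs_le (abs_le.2 h4)
  · exact le_rfl

lemma X_norm (s p : ℝ) : X1 s p ^ 2 + X2 s p ^ 2 ≤ 1 := by
  have h1 : X1 s p ^ 2 ≤ w p ^ 2 := by
    rw [← sq_abs]; exact pow_le_pow_left₀ (abs_nonneg _) (X1_abs_le s p) 2
  have h2 : X2 s p ^ 2 ≤ cl (-1) 1 p ^ 2 := by
    rw [← sq_abs, ← sq_abs (cl (-1) 1 p)]
    exact pow_le_pow_left₀ (abs_nonneg _) (X2_abs_le s p) 2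
  have h3 : w p ^ 2 + cl (-1) 1 p ^ 2 ≤ 1 := by
    by_cases hp : |p| ≤ 1
    · rw [w_sq hp, cl_of_mem (abs_le.1 hp).1 (abs_le.1 hp).2]; linarith
    · push Not at hp
      rw [w_eq_zero hp.le]
      have h4 := cl_mem (a := -1) (b := 1) (by norm_num) p
      nlinarith [h4.1, h4.2]
  linarith

lemma D1_nonneg (s p : ℝ) : 0 ≤ D1 s p := by
  have h1 := al_pos; have h2 := al_lt_one; have hw := w_nonneg p
  unfold D1
  have : 0 ≤ al * w p := by positivity
  split_ifs <;> nlinarith

lemma D2_nonneg (s p : ℝ) : 0 ≤ D2 s p := by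
  unfold D2
  have := integrand_nonneg p
  split_ifs <;> simp [this]

lemma D1_le (s p : ℝ) : D1 s p ≤ 4 := by
  have h1 := al_pos; have h2 := al_lt_one; have hw := w_nonneg p; have hw1 := w_le_one p
  unfold D1
  have : al * w p ≤ 1 := by nlinarith
  have : 0 ≤ al * w p := by positivity
  split_ifs <;> nlinarith

lemma D2_le (s p : ℝ) : D2 s p ≤ 2 := by
  unfold D2
  have := integrand_le p
  split_ifs <;> simp [this]

/-- The divergence is at least lam on the stadium. -/
lemma div_ge {s p : ℝ} (hp : |p| ≤ 1) (hs : |s| ≤ 1 + w p) : lam ≤ D1 s p + D2 s p := by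
  have h1 := al_pos; have h2 := al_lt_one; have hw := w_nonneg p
  rw [abs_le] at hp hs
  unfold D1 D2
  rw [if_pos hp]
  by_cases h : |s| ≤ 1
  · rw [if_pos h, if_pos (abs_le.1 h)]
    have : 0 ≤ (1 - al) * ((if 1 ≤ s ∧ s ≤ 1 + w p then (1:ℝ) else 0)
      + (if -1 - w p ≤ s ∧ s ≤ -1 then 1 else 0)) := by
      apply mul_nonneg (by linarith)
      split_ifs <;> norm_num
    linarith
  · rw [if_neg h]
    have h' : ¬ (-1 ≤ s ∧ s ≤ 1) := fun h3 => h (abs_le.2 h3)
    rw [if_neg h']
    unfold lam
    rcases le_total 0 s with h0 | h0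
    · have h3 : 1 < s := by
        by_contra h4; push Not at h4; exact h' ⟨by linarith, h4⟩
      rw [if_pos ⟨h3.le, hs.2⟩, if_neg (by rintro ⟨_, h5⟩; linarith)]
      linarith
    · have h3 : s < -1 := by
        by_contra h4; push Not at h4; exact h' ⟨h4, by linarith⟩
      rw [if_neg (by rintro ⟨h5, _⟩; linarith), if_pos ⟨by linarith [hs.1], h3.le⟩]
      linarith

lemma ae_ne (a : ℝ) : ∀ᵐ s : ℝ, s ≠ a := by
  have : (volume : Measure ℝ) {a} = 0 := Real.volume_singleton
  rw [ae_iff]
  simpa using this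

lemma X1_deriv (p : ℝ) : ∀ᵐ s : ℝ, HasDerivAt (fun s => X1 s p) (D1 s p) s := by
  have hw := w_nonneg p
  filter_upwards [ae_ne 1, ae_ne (-1), ae_ne (1 + w p), ae_ne (-1 - w p)] with s h1 h2 h3 h4
  have a1 := cl_hasDerivAt (a := -1) (b := 1) (s := s) (by norm_num) h2 h1
  have a2 := cl_hasDerivAt (a := 1) (b := 1 + w p) (s := s) (by linarith) h1 h3
  have a3 := cl_hasDerivAt (a := -1 - w p) (b := -1) (s := s) (by linarith) h4 h2
  exact (a1.const_mul _).add ((a2.add a3).const_mul _)

lemma X2_deriv (s : ℝ) : ∀ᵐ p : ℝ, HasDerivAt (fun p => X2 s p) (D2 s p) p := by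
  filter_upwards [ae_ne 1, ae_ne (-1)] with p h1 h2
  have a1 := cl_hasDerivAt (a := -1) (b := 1) (s := p) (by norm_num) h2 h1
  unfold X2 D2
  by_cases h : |s| ≤ 1
  · simp only [if_pos h]
    have a2 := (B_hasDerivAt (cl (-1) 1 p)).comp p a1
    by_cases hp : -1 ≤ p ∧ p ≤ 1
    · rw [if_pos hp] at a2 ⊢
      rw [cl_of_mem hp.1 hp.2] at a2
      exact a2
    · rw [if_neg hp] at a2 ⊢
      rw [mul_zero] at a2 ⊢
      exact a2
  · simp only [if_neg h]
    exact a1

lemma X1_lip (p : ℝ) : LipschitzWith 2 (fun s => X1 s p) := by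
  apply LipschitzWith.of_dist_le_mul
  intro s t
  have h1 := al_pos; have h2 := al_lt_one; have hw := w_nonneg p; have hw1 := w_le_one p
  rw [Real.dist_eq, Real.dist_eq]
  unfold X1
  have e : al * w p * cl (-1) 1 s + (1 - al) * (cl 1 (1 + w p) s + cl (-1 - w p) (-1) s)
      - (al * w p * cl (-1) 1 t + (1 - al) * (cl 1 (1 + w p) t + cl (-1 - w p) (-1) t))
      = al * w p * (cl (-1) 1 s - cl (-1) 1 t)
        + ((1 - al) * (cl 1 (1 + w p) s - cl 1 (1 + w p) t)
        + (1 - al) * (cl (-1 - w p) (-1) s - cl (-1 - w p) (-1) t)) := by ring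
  rw [e]
  have b1 := cl_lip (-1) 1 s t
  have b2 := cl_lip 1 (1 + w p) s t
  have b3 := cl_lip (-1 - w p) (-1) s t
  have hn := abs_nonneg (s - t)
  have ha : 0 ≤ al * w p := by positivity
  have ha1 : al * w p ≤ al := by nlinarith
  calc _ ≤ |al * w p * (cl (-1) 1 s - cl (-1) 1 t)|
        + (|(1 - al) * (cl 1 (1 + w p) s - cl 1 (1 + w p) t)|
        + |(1 - al) * (cl (-1 - w p) (-1) s - cl (-1 - w p) (-1) t)|) :=
        (abs_add_le _ _).trans (by gcongr; exact abs_add_le _ _)
    _ = al * w p * |cl (-1) 1 s - cl (-1) 1 t|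
        + ((1 - al) * |cl 1 (1 + w p) s - cl 1 (1 + w p) t|
        + (1 - al) * |cl (-1 - w p) (-1) s - cl (-1 - w p) (-1) t|) := by
        rw [abs_mul, abs_mul (1 - al), abs_mul (1 - al), abs_of_nonneg ha,
          abs_of_nonneg (by linarith : 0 ≤ 1 - al)]
    _ ≤ al * |s - t| + ((1 - al) * |s - t| + (1 - al) * |s - t|) := by
        have : 0 ≤ 1 - al := by linarith
        gcongr
    _ ≤ ((2 : NNReal) : ℝ) * |s - t| := by
        push_cast
        nlinarith

lemma X2_lip (s : ℝ) : LipschitzWith 2 (fun p => X2 s p) := by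
  apply LipschitzWith.of_dist_le_mul
  intro p q
  rw [Real.dist_eq, Real.dist_eq]
  unfold X2
  have b1 := cl_lip (-1) 1 p q
  push_cast
  split_ifs
  · exact (B_lip _ _).trans (by gcongr)
  · linarith [abs_nonneg (p - q)]

lemma coord_measurable (i : Fin 2) : Measurable (fun x : E2 => x i) := by
  have : Continuous (fun x : E2 => x i) := by fun_prop
  exact this.measurable

lemma X1_meas : Measurable (fun x : E2 => X1 (x 0) (x 1)) := by
  have h0 : Continuous (fun x : E2 => x 0) := by fun_prop
  have h1 : Continuous (fun x : E2 => x 1) := by fun_prop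
  have hw : Continuous (fun x : E2 => w (x 1)) := continuous_w.comp h1
  have a1 := continuous_cl (a := fun _ : E2 => (-1 : ℝ)) (b := fun _ => 1) continuous_const
    continuous_const h0
  have a2 := continuous_cl (a := fun _ : E2 => (1 : ℝ)) (b := fun x => 1 + w (x 1)) continuous_const
    (by fun_prop) h0
  have a3 := continuous_cl (a := fun x : E2 => -1 - w (x 1)) (b := fun _ => -1) (by fun_prop)
    continuous_const h0
  unfold X1
  apply Continuous.measurable
  fun_prop

lemma continuous_B : Continuous B :=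
  continuous_iff_continuousAt.2 (fun y => (B_hasDerivAt y).continuousAt)

lemma X2_meas : Measurable (fun x : E2 => X2 (x 0) (x 1)) := by
  have h0 : Continuous (fun x : E2 => x 0) := by fun_prop
  have h1 : Continuous (fun x : E2 => x 1) := by fun_prop
  have a1 := continuous_cl (a := fun _ : E2 => (-1 : ℝ)) (b := fun _ => 1) continuous_const
    continuous_const h1
  unfold X2
  apply Measurable.ite
  · exact measurableSet_le (by fun_prop) measurable_const
  · exact (continuous_B.comp a1).measurable
  · exact a1.measurable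

lemma D1_meas : Measurable (fun x : E2 => D1 (x 0) (x 1)) := by
  have h0 := coord_measurable 0
  have h1 := coord_measurable 1
  have hw : Measurable (fun x : E2 => w (x 1)) := continuous_w.measurable.comp h1
  unfold D1
  have m1 : Measurable (fun x : E2 => if -1 ≤ x 0 ∧ x 0 ≤ 1 then (1 : ℝ) else 0) := by
    apply Measurable.ite _ measurable_const measurable_const
    exact (measurableSet_le measurable_const h0).inter (measurableSet_le h0 measurable_const)
  have m2 : Measurable (fun x : E2 => if 1 ≤ x 0 ∧ x 0 ≤ 1 + w (x 1) then (1 : ℝ) else 0) := by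
    apply Measurable.ite _ measurable_const measurable_const
    exact (measurableSet_le measurable_const h0).inter
      (measurableSet_le h0 (by fun_prop))
  have m3 : Measurable (fun x : E2 => if -1 - w (x 1) ≤ x 0 ∧ x 0 ≤ -1 then (1 : ℝ) else 0) := by
    apply Measurable.ite _ measurable_const measurable_const
    exact (measurableSet_le (by fun_prop) h0).inter
      (measurableSet_le h0 measurable_const)
  exact ((hw.const_mul al).mul m1).add ((m2.add m3).const_mul (1 - al))

lemma D2_meas : Measurable (fun x : E2 => D2 (x 0) (x 1)) := by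
  have h0 := coord_measurable 0
  have h1 := coord_measurable 1
  have hw : Measurable (fun x : E2 => w (x 1)) := continuous_w.measurable.comp h1
  unfold D2
  have m1 : Measurable (fun x : E2 => if -1 ≤ x 1 ∧ x 1 ≤ 1 then (1 : ℝ) else 0) := by
    apply Measurable.ite _ measurable_const measurable_const
    exact (measurableSet_le measurable_const h1).inter (measurableSet_le h1 measurable_const)
  apply Measurable.ite
  · exact measurableSet_le (by fun_prop) measurable_const
  · exact ((measurable_const.sub (hw.const_mul al)).mul m1)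
  · exact m1

end Pool.Agent.H924R3
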