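import Pool.Agent.H924R3.Base

set_option autoImplicit false
open MeasureTheory Set Metric Filter Topology

namespace Pool.Agent.H924R3

lemma ibp1 {f g : ℝ → ℝ} {C D : NNReal} (hf : LipschitzWith C f) (hg : LipschitzWith D g)
    (h'g : HasCompactSupport g) (f' : ℝ → ℝ) (hf' : ∀ᵐ s : ℝ, HasDerivAt f (f' s) s) :
    ∫ s, lineDeriv ℝ g s 1 * f s = - ∫ s, f' s * g s := by
  have h := LipschitzWith.integral_lineDeriv_mul_eq (μ := (volume : Measure ℝ)) hf hg h'g 1
  simp only [lineDeriv_neg, neg_mul] at h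
  rw [integral_neg] at h
  have h2 : ∫ s, lineDeriv ℝ f s 1 * g s = ∫ s, f' s * g s := by
    apply integral_congr_ae
    filter_upwards [hf'] with s hs
    have : HasLineDerivAt ℝ f (f' s) s 1 := by
      have := hs.hasFDerivAt.hasLineDerivAt 1
      simpa using this
    rw [this.lineDeriv]
  rw [h2] at h
  linarith

lemma lineDeriv_slice0 (W : E2 → ℝ) (s p : ℝ) :
    lineDeriv ℝ W (mk s p) (mk 1 0) = lineDeriv ℝ (fun t => W (mk t p)) s 1 := by
  unfold lineDeriv
  simp [mk_add, mk_smul]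

lemma lineDeriv_slice1 (W : E2 → ℝ) (s p : ℝ) :
    lineDeriv ℝ W (mk s p) (mk 0 1) = lineDeriv ℝ (fun t => W (mk s t)) p 1 := by
  unfold lineDeriv
  simp [mk_add, mk_smul]

lemma norm_mk (s p : ℝ) : ‖mk s p‖ ^ 2 = s ^ 2 + p ^ 2 := by rw [norm_sq]; simp

lemma iso0 (p : ℝ) : Isometry (fun s : ℝ => mk s p) := by
  apply Isometry.of_dist_eq
  intro a b
  rw [dist_eq_norm, mk_sub, Real.dist_eq]
  have : ‖mk (a - b) (p - p)‖ ^ 2 = |a - b| ^ 2 := by rw [norm_mk]; simp
  exact (sq_eq_sq₀ (norm_nonneg _) (abs_nonneg _)).1 this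

lemma iso1 (s : ℝ) : Isometry (fun p : ℝ => mk s p) := by
  apply Isometry.of_dist_eq
  intro a b
  rw [dist_eq_norm, mk_sub, Real.dist_eq]
  have : ‖mk (s - s) (a - b)‖ ^ 2 = |a - b| ^ 2 := by rw [norm_mk]; simp
  exact (sq_eq_sq₀ (norm_nonneg _) (abs_nonneg _)).1 this

lemma isometry_compactSupport {f : ℝ → E2} (hf : Isometry f) {W : E2 → ℝ}
    (hW : HasCompactSupport W) : HasCompactSupport (fun t => W (f t)) :=
  hW.comp_isClosedEmbedding hf.isClosedEmbedding

lemma lineDeriv_eq_zero_of_notMem {W : E2 → ℝ} {x : E2} (hx : x ∉ tsupport W) (v : E2) :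
    lineDeriv ℝ W x v = 0 := by
  have h : W =ᶠ[𝓝 x] (fun _ => 0) := notMem_tsupport_iff_eventuallyEq.1 hx
  rw [h.lineDeriv_eq]
  simp [lineDeriv]

lemma integrable_lineDeriv_mul {W : E2 → ℝ} {C : NNReal} (hW : LipschitzWith C W)
    (hc : HasCompactSupport W) (v : E2) {f : E2 → ℝ} (hf : Measurable f) (M : ℝ)
    (hM : ∀ x, |f x| ≤ M) : Integrable (fun x => lineDeriv ℝ W x v * f x) := by
  have hmeas : Measurable (fun x => lineDeriv ℝ W x v) := measurable_lineDeriv hW.continuous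
  have hM0 : 0 ≤ M := (abs_nonneg _).trans (hM 0)
  rw [← integrableOn_iff_integrable_of_support_subset (s := tsupport W)]
  · apply Measure.integrableOn_of_bounded (M := C * ‖v‖ * M) hc.isCompact.measure_lt_top.ne
    · exact (hmeas.mul hf).aestronglyMeasurable
    · filter_upwards with x
      rw [norm_mul]
      have h1 : ‖lineDeriv ℝ W x v‖ ≤ C * ‖v‖ := norm_lineDeriv_le_of_lipschitz ℝ hW
      exact mul_le_mul h1 (hM x) (norm_nonneg _) (by positivity)
  · intro x hx
    by_contra hx2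
    apply hx
    simp [lineDeriv_eq_zero_of_notMem hx2 v]

lemma integrable_mul_W {W : E2 → ℝ} {C : NNReal} (hW : LipschitzWith C W)
    (hc : HasCompactSupport W) {f : E2 → ℝ} (hf : Measurable f) (M : ℝ)
    (hM : ∀ x, |f x| ≤ M) : Integrable (fun x => f x * W x) := by
  have hint : Integrable W := hW.continuous.integrable_of_hasCompactSupport hc
  apply hint.bdd_mul (c := M) hf.aestronglyMeasurable
  filter_upwards with x using hM x

lemma integral_E_eq0 (φ : E2 → ℝ) (hφ : Integrable φ) :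
    ∫ x, φ x = ∫ p : ℝ, ∫ s : ℝ, φ (mk s p) := by
  have h1 : ∫ x, φ x = ∫ q : ℝ × ℝ, φ (mk q.1 q.2) := by
    have := Psi_mp.symm.integral_comp' (g := φ)
    rw [← this]; rfl
  have hint : Integrable (fun q : ℝ × ℝ => φ (mk q.1 q.2)) := by
    have := (Psi_mp.symm.integrable_comp_emb Psi.symm.measurableEmbedding (g := φ)).2 hφ
    exact this
  rw [h1, Measure.volume_eq_prod, integral_prod_symm _ (by rwa [← Measure.volume_eq_prod])]

lemma integral_E_eq1 (φ : E2 → ℝ) (hφ : Integrable φ) :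
    ∫ x, φ x = ∫ s : ℝ, ∫ p : ℝ, φ (mk s p) := by
  have h1 : ∫ x, φ x = ∫ q : ℝ × ℝ, φ (mk q.1 q.2) := by
    have := Psi_mp.symm.integral_comp' (g := φ)
    rw [← this]; rfl
  have hint : Integrable (fun q : ℝ × ℝ => φ (mk q.1 q.2)) := by
    have := (Psi_mp.symm.integrable_comp_emb Psi.symm.measurableEmbedding (g := φ)).2 hφ
    exact this
  rw [h1, Measure.volume_eq_prod, integral_prod _ (by rwa [← Measure.volume_eq_prod])]

/-- Integration by parts in the first direction. -/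
lemma ibp_dir0 {W : E2 → ℝ} {C : NNReal} (hW : LipschitzWith C W) (hc : HasCompactSupport W)
    (f f' : ℝ → ℝ → ℝ) (hfm : Measurable (fun x : E2 => f (x 0) (x 1)))
    (hfm' : Measurable (fun x : E2 => f' (x 0) (x 1))) (M M' : ℝ) (hM : ∀ s p, |f s p| ≤ M)
    (hM' : ∀ s p, |f' s p| ≤ M') (D : NNReal) (hlip : ∀ p, LipschitzWith D (fun s => f s p))
    (hder : ∀ p, ∀ᵐ s : ℝ, HasDerivAt (fun s => f s p) (f' s p) s) :
    ∫ x : E2, lineDeriv ℝ W x (mk 1 0) * f (x 0) (x 1) = - ∫ x : E2, f' (x 0) (x 1) * W x := by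
  rw [integral_E_eq0 _ (integrable_lineDeriv_mul hW hc _ hfm M (fun x => hM _ _)),
    integral_E_eq0 _ (integrable_mul_W hW hc hfm' M' (fun x => hM' _ _)), ← integral_neg]
  congr 1
  ext p
  simp only [mk_zero, mk_one, lineDeriv_slice0]
  have hg : LipschitzWith (C * 1) (fun s => W (mk s p)) := hW.comp (iso0 p).lipschitz
  exact ibp1 (hlip p) hg (isometry_compactSupport (iso0 p) hc) (fun s => f' s p) (hder p)

/-- Integration by parts in the second direction. -/
lemma ibp_dir1 {W : E2 → ℝ} {C : NNReal} (hW : LipschitzWith C W) (hc : HasCompactSupport W)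
    (f f' : ℝ → ℝ → ℝ) (hfm : Measurable (fun x : E2 => f (x 0) (x 1)))
    (hfm' : Measurable (fun x : E2 => f' (x 0) (x 1))) (M M' : ℝ) (hM : ∀ s p, |f s p| ≤ M)
    (hM' : ∀ s p, |f' s p| ≤ M') (D : NNReal) (hlip : ∀ s, LipschitzWith D (fun p => f s p))
    (hder : ∀ s, ∀ᵐ p : ℝ, HasDerivAt (fun p => f s p) (f' s p) p) :
    ∫ x : E2, lineDeriv ℝ W x (mk 0 1) * f (x 0) (x 1) = - ∫ x : E2, f' (x 0) (x 1) * W x := by
  rw [integral_E_eq1 _ (integrable_lineDeriv_mul hW hc _ hfm M (fun x => hM _ _)),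
    integral_E_eq1 _ (integrable_mul_W hW hc hfm' M' (fun x => hM' _ _)), ← integral_neg]
  congr 1
  ext s
  simp only [mk_zero, mk_one, lineDeriv_slice1]
  have hg : LipschitzWith (C * 1) (fun p => W (mk s p)) := hW.comp (iso1 s).lipschitz
  exact ibp1 (hlip s) hg (isometry_compactSupport (iso1 s) hc) (fun p => f' s p) (hder s)

end Pool.Agent.H924R3
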