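import Pool.Agent.H924R3.Grad
import Pool.Agent.H924R3.Ibp
import Pool.Agent.H924R3.Field

set_option autoImplicit false
open MeasureTheory Set Metric Filter Topology

namespace Pool.Agent.H924R3

/-- The stadium: unit neighbourhood of the segment from (-1,0) to (1,0). -/
def St : Set E2 := {x : E2 | |x 1| ≤ 1 ∧ |x 0| ≤ 1 + w (x 1)}

lemma St_closed : IsClosed St := by
  have h0 : Continuous (fun x : E2 => x 0) := by fun_prop
  have h1 : Continuous (fun x : E2 => x 1) := by fun_prop
  have hw : Continuous (fun x : E2 => w (x 1)) := continuous_w.comp h1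
  have e : St = {x : E2 | |x 1| ≤ 1} ∩ {x : E2 | |x 0| ≤ 1 + w (x 1)} := rfl
  rw [e]
  apply IsClosed.inter
  · exact isClosed_le h1.abs continuous_const
  · exact isClosed_le h0.abs (continuous_const.add hw)

lemma St_bounded : St ⊆ closedBall 0 3 := by
  rintro x ⟨h1, h2⟩
  rw [mem_closedBall, dist_zero_right]
  have := norm_sq x
  have hw := w_le_one (x 1)
  have h3 : x 0 ^ 2 ≤ 4 := by
    rw [← sq_abs]; nlinarith [abs_nonneg (x 0)]
  have h4 : x 1 ^ 2 ≤ 1 := by
    rw [← sq_abs]; nlinarith [abs_nonneg (x 1)]
  have : ‖x‖ ^ 2 ≤ 3 ^ 2 := by nlinarith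
  exact (sq_le_sq₀ (norm_nonneg _) (by norm_num)).1 this

lemma St_compact : IsCompact St :=
  (isCompact_closedBall (0 : E2) 3).of_isClosed_subset St_closed St_bounded

lemma V_compactSupport {S : Set E2} (hS : IsCompact S) {ε : ℝ} :
    HasCompactSupport (V S ε) := by
  obtain ⟨R, hR⟩ := hS.isBounded.subset_closedBall (0 : E2)
  apply HasCompactSupport.intro (isCompact_closedBall (0 : E2) (R + ε))
  intro x hx
  unfold V
  have : S ∩ closedBall x ε = ∅ := by
    apply Set.eq_empty_of_forall_notMem
    rintro y ⟨h1, h2⟩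
    apply hx
    have h3 := hR h1
    rw [mem_closedBall] at *
    calc dist x 0 ≤ dist x y + dist y 0 := dist_triangle _ _ _
      _ ≤ ε + R := by rw [dist_comm x y]; linarith
      _ = R + ε := by ring
  rw [this]; simp

/-- The Cheeger inequality for sets well inside the stadium. -/
lemma cheeger_inside {S : Set E2} (hS : IsCompact S) {ε : ℝ} (hε : 0 < ε)
    (hin : ∀ y ∈ S, closedBall y ε ⊆ St) (hF : μH[1] (frontier S) ≠ ⊤) :
    lam * (volume S).toReal ≤ (μH[1] (frontier S)).toReal := by
  have hScl := hS.isClosed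
  set W := V S ε with hWdef
  have hWlip := V_lip hScl hF hε.le
  have hWc := V_compactSupport hS (ε := ε)
  -- integration by parts
  have hI1 := ibp_dir0 hWlip hWc X1 D1 X1_meas D1_meas 1 4
    (fun s p => (X1_abs_le s p).trans (w_le_one p))
    (fun s p => by rw [abs_of_nonneg (D1_nonneg s p)]; exact D1_le s p) 2 X1_lip X1_deriv
  have hX2b : ∀ s p, |X2 s p| ≤ 1 := fun s p =>
    (X2_abs_le s p).trans (abs_le.2 (cl_mem (by norm_num) p))
  have hI2 := ibp_dir1 hWlip hWc X2 D2 X2_meas D2_meas 1 2 hX2b
    (fun s p => by rw [abs_of_nonneg (D2_nonneg s p)]; exact D2_le s p) 2 X2_lip X2_deriv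
  set X : E2 → E2 := fun x => - mk (X1 (x 0) (x 1)) (X2 (x 0) (x 1)) with hX
  have hXn : ∀ x, ‖X x‖ ≤ 1 := by
    intro x
    rw [hX]; simp only [norm_neg]
    have := norm_mk (X1 (x 0) (x 1)) (X2 (x 0) (x 1))
    have h2 := X_norm (x 0) (x 1)
    rw [← this] at h2
    exact (sq_le_one_iff₀ (norm_nonneg _)).1 h2
  have hint1 := integrable_lineDeriv_mul hWlip hWc (mk 1 0) X1_meas 1
    (fun x => (X1_abs_le (x 0) (x 1)).trans (w_le_one (x 1)))
  have hint2 := integrable_lineDeriv_mul hWlip hWc (mk 0 1) X2_meas 1
    (fun x => hX2b (x 0) (x 1))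
  have hint3 := integrable_mul_W hWlip hWc D1_meas 4
    (fun x => by rw [abs_of_nonneg (D1_nonneg _ _)]; exact D1_le _ _)
  have hint4 := integrable_mul_W hWlip hWc D2_meas 2
    (fun x => by rw [abs_of_nonneg (D2_nonneg _ _)]; exact D2_le _ _)
  have hfd : ∫ x, fderiv ℝ W x (X x) = ∫ x : E2, (D1 (x 0) (x 1) + D2 (x 0) (x 1)) * W x := by
    have e1 : ∫ x, fderiv ℝ W x (X x) = ∫ x : E2, -(lineDeriv ℝ W x (mk 1 0) * X1 (x 0) (x 1)
        + lineDeriv ℝ W x (mk 0 1) * X2 (x 0) (x 1)) := by
      apply integral_congr_ae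
      filter_upwards [hWlip.ae_differentiableAt] with x hx
      rw [hx.lineDeriv_eq_fderiv, hx.lineDeriv_eq_fderiv]
      have e2 : X x = -(X1 (x 0) (x 1) • mk 1 0 + X2 (x 0) (x 1) • mk 0 1) := by
        rw [hX]; simp [mk_smul, mk_add]
      rw [e2, map_neg, map_add, map_smul, map_smul, smul_eq_mul, smul_eq_mul]
      ring
    rw [e1, integral_neg, integral_add hint1 hint2, hI1, hI2]
    have e3 : ∫ x : E2, (D1 (x 0) (x 1) + D2 (x 0) (x 1)) * W x
        = ∫ x : E2, (D1 (x 0) (x 1) * W x + D2 (x 0) (x 1) * W x) := by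
      congr 1; ext x; ring
    rw [e3, integral_add hint3 hint4]
    ring
  -- lower bound
  have hlow : lam * (volume S * volume (closedBall (0 : E2) ε)).toReal
      ≤ ∫ x : E2, (D1 (x 0) (x 1) + D2 (x 0) (x 1)) * W x := by
    have hdc := double_count ((volume : Measure E2).restrict St) ((volume : Measure E2).restrict S) ε
    have e1 : ∀ x : E2, ((volume : Measure E2).restrict S) (closedBall x ε)
        = volume (S ∩ closedBall x ε) := by
      intro x
      rw [Measure.restrict_apply measurableSet_closedBall, inter_comm]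
    have e2 : ∫⁻ y in S, ((volume : Measure E2).restrict St) (closedBall y ε)
        = volume S * volume (closedBall (0 : E2) ε) := by
      have : ∀ y ∈ S, ((volume : Measure E2).restrict St) (closedBall y ε)
          = volume (closedBall (0 : E2) ε) := by
        intro y hy
        rw [Measure.restrict_apply measurableSet_closedBall, inter_eq_left.2 (hin y hy)]
        exact Measure.addHaar_closedBall_center volume y ε
      rw [setLIntegral_congr_fun hScl.measurableSet this, setLIntegral_const, mul_comm]
    rw [e2] at hdc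
    simp only [e1] at hdc
    have hWint : Integrable W := hWlip.continuous.integrable_of_hasCompactSupport hWc
    have e3 : ∫ x in St, W x = (volume S * volume (closedBall (0 : E2) ε)).toReal := by
      rw [← hdc, ← integral_toReal]
      · rfl
      · have hm : Measurable (fun x : E2 => ENNReal.ofReal (W x)) :=
          ENNReal.measurable_ofReal.comp hWlip.continuous.measurable
        have : (fun x : E2 => volume (S ∩ closedBall x ε)) = fun x => ENNReal.ofReal (W x) := by
          ext x
          rw [hWdef]; unfold V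
          rw [ENNReal.ofReal_toReal (vol_fin _ _ _)]
        rw [this]
        exact hm.aemeasurable
      · filter_upwards with x
        exact lt_top_iff_ne_top.2 (vol_fin _ _ _)
    rw [← e3, ← integral_const_mul]
    rw [← integral_indicator St_closed.measurableSet]
    have hint5 : Integrable (fun x : E2 => (D1 (x 0) (x 1) + D2 (x 0) (x 1)) * W x) := by
      have := hint3.add hint4
      refine this.congr ?_
      filter_upwards with x
      simp only [Pi.add_apply]; ring
    apply integral_mono_of_nonneg _ hint5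
    · filter_upwards with x
      have hW0 : 0 ≤ W x := V_nonneg _ _ _
      by_cases hx : x ∈ St
      · rw [indicator_of_mem hx]
        exact mul_le_mul_of_nonneg_right (div_ge hx.1 hx.2) hW0
      · rw [indicator_of_notMem hx]
        exact mul_nonneg (add_nonneg (D1_nonneg _ _) (D2_nonneg _ _)) hW0
    · filter_upwards with x
      have hW0 : 0 ≤ W x := V_nonneg _ _ _
      apply indicator_nonneg
      intro y _
      apply mul_nonneg _ (V_nonneg _ _ _)
      unfold lam; linarith [al_lt_one]
  have hup : ∀ δ : ℝ, 0 < δ → lam * (volume S * volume (closedBall (0 : E2) ε)).toReal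
      ≤ (μH[1] (frontier S) * volume (closedBall (0 : E2) (ε + δ))).toReal := by
    intro δ hδ
    rw [hfd.symm] at hlow
    exact hlow.trans (integral_fderiv_le hScl hF hε.le hδ X hXn)
  -- scaling of the ball volume
  have hball : ∀ r : ℝ, 0 ≤ r → (volume (closedBall (0 : E2) r)).toReal
      = r ^ 2 * (volume (closedBall (0 : E2) 1)).toReal := by
    intro r hr
    rw [Measure.addHaar_closedBall' volume 0 hr, ENNReal.toReal_mul, ENNReal.toReal_ofReal (by positivity)]
    simp
  have hb1 : 0 < (volume (closedBall (0 : E2) 1)).toReal := by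
    apply ENNReal.toReal_pos
    · exact (measure_closedBall_pos volume _ one_pos).ne'
    · exact measure_closedBall_lt_top.ne
  have hlim : lam * (volume S).toReal * ε ^ 2 ≤ (μH[1] (frontier S)).toReal * ε ^ 2 := by
    have h1 : ∀ δ : ℝ, 0 < δ → lam * (volume S).toReal * ε ^ 2
        ≤ (μH[1] (frontier S)).toReal * (ε + δ) ^ 2 := by
      intro δ hδ
      have := hup δ hδ
      rw [ENNReal.toReal_mul, ENNReal.toReal_mul, hball ε hε.le, hball (ε + δ) (by linarith)] at this
      have h3 : (lam * (volume S).toReal * ε ^ 2) * (volume (closedBall (0 : E2) 1)).toReal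
        ≤ ((μH[1] (frontier S)).toReal * (ε + δ) ^ 2) * (volume (closedBall (0 : E2) 1)).toReal := by
        linarith
      exact le_of_mul_le_mul_right h3 hb1
    have h2 : Tendsto (fun δ : ℝ => (μH[1] (frontier S)).toReal * (ε + δ) ^ 2) (𝓝[>] 0)
        (𝓝 ((μH[1] (frontier S)).toReal * (ε + 0) ^ 2)) := by
      apply Tendsto.mono_left _ nhdsWithin_le_nhds
      apply Continuous.tendsto
      fun_prop
    rw [add_zero] at h2
    apply ge_of_tendsto h2
    filter_upwards [self_mem_nhdsWithin] with δ hδ
    exact h1 δ hδ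
  have hε2 : 0 < ε ^ 2 := by positivity
  exact le_of_mul_le_mul_right hlim hε2

end Pool.Agent.H924R3
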