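import Pool.Agent.H924R3.Slice

set_option autoImplicit false
open MeasureTheory Set Metric Filter Topology

namespace Pool.Agent.H924R3

/-- Local area function. -/
noncomputable def V (S : Set E2) (ε : ℝ) (x : E2) : ℝ := (volume (S ∩ closedBall x ε)).toReal

/-- Local boundary length. -/
noncomputable def K (S : Set E2) (r : ℝ) (x : E2) : ℝ :=
  (μH[1] (frontier S ∩ closedBall x r)).toReal

lemma vol_fin (S : Set E2) (x : E2) (ε : ℝ) : volume (S ∩ closedBall x ε) ≠ ⊤ :=
  ((measure_mono inter_subset_right).trans_lt measure_closedBall_lt_top).ne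

lemma V_nonneg (S : Set E2) (ε : ℝ) (x : E2) : 0 ≤ V S ε x := ENNReal.toReal_nonneg

lemma V_shift {S : Set E2} (hS : IsClosed S) (hF : μH[1] (frontier S) ≠ ⊤) {ε : ℝ} (hε : 0 ≤ ε)
    {δ : ℝ} (x v : E2) (hv : ‖v‖ ≤ δ) :
    V S ε (x + v) - V S ε x ≤ ‖v‖ * K S (ε + δ) x := by
  have h := shift_le' S hS x v ε hε
  have hKfin : μH[1] (frontier S ∩ closedBall x (ε + δ)) ≠ ⊤ :=
    ((measure_mono inter_subset_left).trans_lt (lt_top_iff_ne_top.2 hF)).ne
  have h2 : volume (S ∩ closedBall (x + v) ε) ≤ volume (S ∩ closedBall x ε)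
      + ENNReal.ofReal ‖v‖ * μH[1] (frontier S ∩ closedBall x (ε + δ)) := by
    refine h.trans ?_
    gcongr
  have h3 := ENNReal.toReal_mono (by
    apply ENNReal.add_ne_top.2 ⟨vol_fin _ _ _, ENNReal.mul_ne_top ENNReal.ofReal_ne_top hKfin⟩) h2
  rw [ENNReal.toReal_add (vol_fin _ _ _) (ENNReal.mul_ne_top ENNReal.ofReal_ne_top hKfin),
    ENNReal.toReal_mul, ENNReal.toReal_ofReal (norm_nonneg _)] at h3
  unfold V K
  linarith

lemma K_le {S : Set E2} (hF : μH[1] (frontier S) ≠ ⊤) (r : ℝ) (x : E2) :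
    K S r x ≤ (μH[1] (frontier S)).toReal :=
  ENNReal.toReal_mono hF (measure_mono inter_subset_left)

lemma K_nonneg (S : Set E2) (r : ℝ) (x : E2) : 0 ≤ K S r x := ENNReal.toReal_nonneg

lemma V_lip {S : Set E2} (hS : IsClosed S) (hF : μH[1] (frontier S) ≠ ⊤) {ε : ℝ} (hε : 0 ≤ ε) :
    LipschitzWith (Real.toNNReal (μH[1] (frontier S)).toReal) (V S ε) := by
  apply LipschitzWith.of_dist_le_mul
  intro x y
  rw [Real.coe_toNNReal _ ENNReal.toReal_nonneg]
  have h1 := V_shift hS hF hε x (y - x) le_rfl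
  have h2 := V_shift hS hF hε y (x - y) le_rfl
  rw [add_sub_cancel] at h1 h2
  have k1 := K_le hF (ε + ‖y - x‖) x
  have k2 := K_le hF (ε + ‖x - y‖) y
  rw [Real.dist_eq, dist_eq_norm, abs_le]
  rw [norm_sub_rev y x] at *
  have n0 := norm_nonneg (x - y)
  constructor
  · nlinarith
  · nlinarith

lemma fderiv_le {S : Set E2} (hS : IsClosed S) (hF : μH[1] (frontier S) ≠ ⊤) {ε : ℝ} (hε : 0 ≤ ε)
    {δ : ℝ} (hδ : 0 < δ) (x v : E2) (hx : DifferentiableAt ℝ (V S ε) x) (hv : ‖v‖ ≤ 1) :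
    fderiv ℝ (V S ε) x v ≤ K S (ε + δ) x := by
  have h1 : HasLineDerivAt ℝ (V S ε) (fderiv ℝ (V S ε) x v) x v :=
    hx.hasFDerivAt.hasLineDerivAt v
  have h2 := h1.tendsto_slope_zero_right
  apply le_of_tendsto h2
  have : ∀ᶠ t : ℝ in 𝓝[>] 0, t ∈ Ioo 0 δ := Ioo_mem_nhdsGT hδ
  filter_upwards [this] with t ht
  have hnt : ‖t • v‖ ≤ δ := by
    rw [norm_smul, Real.norm_eq_abs, abs_of_pos ht.1]
    nlinarith [ht.1, ht.2, norm_nonneg v]
  have h3 := V_shift hS hF hε x (t • v) hnt
  rw [smul_eq_mul, inv_mul_le_iff₀ ht.1]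
  refine h3.trans ?_
  have : ‖t • v‖ ≤ t := by
    rw [norm_smul, Real.norm_eq_abs, abs_of_pos ht.1]
    nlinarith [ht.1, norm_nonneg v]
  exact mul_le_mul_of_nonneg_right this (K_nonneg _ _ _)

/-- Double counting. -/
lemma double_count (μ ν : Measure E2) [SFinite μ] [SFinite ν] (r : ℝ) :
    ∫⁻ x, ν (closedBall x r) ∂μ = ∫⁻ y, μ (closedBall y r) ∂ν := by
  have hA : MeasurableSet {q : E2 × E2 | dist q.1 q.2 ≤ r} :=
    (isClosed_le (continuous_fst.dist continuous_snd) continuous_const).measurableSet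
  have h1 := Measure.prod_apply (μ := μ) (ν := ν) hA
  have h2 := Measure.prod_apply_symm (μ := μ) (ν := ν) hA
  rw [h1] at h2
  have e1 : ∀ x : E2, (Prod.mk x ⁻¹' {q : E2 × E2 | dist q.1 q.2 ≤ r}) = closedBall x r := by
    intro x; ext y; simp [dist_comm]
  have e2 : ∀ y : E2, ((fun x => (x, y)) ⁻¹' {q : E2 × E2 | dist q.1 q.2 ≤ r}) = closedBall y r := by
    intro x; ext y; simp
  simp only [e1, e2] at h2
  exact h2

lemma lintegral_K {S : Set E2} (hF : μH[1] (frontier S) ≠ ⊤) (r : ℝ) :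
    ∫⁻ x, μH[1] (frontier S ∩ closedBall x r) = μH[1] (frontier S) * volume (closedBall (0 : E2) r) := by
  have hfin : IsFiniteMeasure ((μH[1] : Measure E2).restrict (frontier S)) :=
    ⟨by rw [Measure.restrict_apply_univ]; exact lt_top_iff_ne_top.2 hF⟩
  have h := double_count (volume : Measure E2) ((μH[1] : Measure E2).restrict (frontier S)) r
  have e1 : ∀ x : E2, ((μH[1] : Measure E2).restrict (frontier S)) (closedBall x r)
      = μH[1] (frontier S ∩ closedBall x r) := by
    intro x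
    rw [Measure.restrict_apply measurableSet_closedBall, inter_comm]
  simp only [e1] at h
  rw [h]
  have e2 : ∀ y : E2, volume (closedBall y r) = volume (closedBall (0 : E2) r) := by
    intro y
    exact Measure.addHaar_closedBall_center volume y r
  simp only [e2]
  rw [lintegral_const, Measure.restrict_apply_univ, mul_comm]

lemma measurable_Kaux {S : Set E2} (hF : μH[1] (frontier S) ≠ ⊤) (r : ℝ) :
    Measurable (fun x : E2 => μH[1] (frontier S ∩ closedBall x r)) := by
  have hfin : IsFiniteMeasure ((μH[1] : Measure E2).restrict (frontier S)) :=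
    ⟨by rw [Measure.restrict_apply_univ]; exact lt_top_iff_ne_top.2 hF⟩
  have hA : MeasurableSet {q : E2 × E2 | dist q.1 q.2 ≤ r} :=
    (isClosed_le (continuous_fst.dist continuous_snd) continuous_const).measurableSet
  have h := measurable_measure_prodMk_left (ν := (μH[1] : Measure E2).restrict (frontier S)) hA
  convert h using 2 with x
  rw [Measure.restrict_apply (measurable_prodMk_left hA)]
  congr 1
  ext y; simp [dist_comm, and_comm]

lemma integral_K {S : Set E2} (hF : μH[1] (frontier S) ≠ ⊤) (r : ℝ) :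
    Integrable (K S r) ∧ ∫ x, K S r x = (μH[1] (frontier S) * volume (closedBall (0 : E2) r)).toReal := by
  have hm := measurable_Kaux hF r
  have hl := lintegral_K hF r
  have hfin : ∫⁻ x, μH[1] (frontier S ∩ closedBall x r) ≠ ⊤ := by
    rw [hl]; exact ENNReal.mul_ne_top hF measure_closedBall_lt_top.ne
  refine ⟨integrable_toReal_of_lintegral_ne_top hm.aemeasurable hfin, ?_⟩
  unfold K
  rw [integral_toReal hm.aemeasurable, hl]
  filter_upwards with x
  exact (measure_mono inter_subset_left).trans_lt (lt_top_iff_ne_top.2 hF)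

/-- Gradient bound, integrated. -/
lemma integral_fderiv_le {S : Set E2} (hS : IsClosed S) (hF : μH[1] (frontier S) ≠ ⊤)
    {ε : ℝ} (hε : 0 ≤ ε) {δ : ℝ} (hδ : 0 < δ) (X : E2 → E2) (hX : ∀ x, ‖X x‖ ≤ 1) :
    ∫ x, fderiv ℝ (V S ε) x (X x) ≤
      (μH[1] (frontier S) * volume (closedBall (0 : E2) (ε + δ))).toReal := by
  by_cases hint : Integrable (fun x => fderiv ℝ (V S ε) x (X x))
  · rw [← (integral_K hF (ε + δ)).2]
    apply integral_mono_ae hint (integral_K hF (ε + δ)).1
    filter_upwards [(V_lip hS hF hε).ae_differentiableAt] with x hx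
    exact fderiv_le hS hF hε hδ x (X x) hx (hX x)
  · rw [integral_undef hint]; exact ENNReal.toReal_nonneg

end Pool.Agent.H924R3
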