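import Pool.Agent.H924R3.Base

set_option autoImplicit false
open MeasureTheory Set Metric

namespace Pool.Agent.H924R3

lemma dist_mk_sq (s p : ℝ) (x : E2) : dist (mk s p) x ^ 2 = (s - x 0) ^ 2 + (p - x 1) ^ 2 := by
  rw [dist_eq_norm, norm_sq]; simp

lemma mem_cb_iff (s p : ℝ) (x : E2) {ε : ℝ} (hε : 0 ≤ ε) :
    mk s p ∈ closedBall x ε ↔ (s - x 0) ^ 2 + (p - x 1) ^ 2 ≤ ε ^ 2 := by
  rw [mem_closedBall, ← dist_mk_sq, sq_le_sq₀ dist_nonneg hε]

/-- Shift of a ball in the first coordinate direction. -/
lemma shift_le (S : Set E2) (hS : IsClosed S) (x : E2) (ε h : ℝ) (hε : 0 ≤ ε) (hh : 0 ≤ h) :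
    volume (S ∩ closedBall (x + mk h 0) ε) ≤ volume (S ∩ closedBall x ε)
      + ENNReal.ofReal h * μH[1] (frontier S ∩ closedBall x (ε + h)) := by
  classical
  set F := frontier S ∩ closedBall x (ε + h) with hF
  have hFc : IsCompact F := (isCompact_closedBall x (ε + h)).inter_left isClosed_frontier
  let π : E2 → ℝ := fun y => y 1
  have hπ : LipschitzWith 1 π := by
    apply LipschitzWith.of_dist_le_mul
    intro a b
    simp only [π, NNReal.coe_one, one_mul]
    rw [Real.dist_eq, dist_eq_norm]
    have := norm_sq (a - b)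
    have h2 : (a 1 - b 1) ^ 2 ≤ ‖a - b‖ ^ 2 := by
      rw [this]; simp; positivity
    exact abs_le_of_sq_le_sq h2 (norm_nonneg _)
  have hπF : IsCompact (π '' F) := hFc.image hπ.continuous
  have hvol : volume (π '' F) ≤ μH[1] F := by
    rw [← hausdorffMeasure_real]
    simpa using hπ.hausdorffMeasure_image_le (d := 1) (by norm_num) F
  have key : ∀ p : ℝ, volume {s : ℝ | mk s p ∈ S ∩ closedBall (x + mk h 0) ε}
      ≤ volume {s : ℝ | mk s p ∈ S ∩ closedBall x ε}
        + (π '' F).indicator (fun _ => ENNReal.ofReal h) p := by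
    intro p
    by_cases hp : ε ^ 2 < (p - x 1) ^ 2
    · have : {s : ℝ | mk s p ∈ S ∩ closedBall (x + mk h 0) ε} = ∅ := by
        apply Set.eq_empty_of_forall_notMem
        rintro s ⟨_, h2⟩
        rw [mem_cb_iff _ _ _ hε] at h2
        have : (x + mk h 0) 1 = x 1 := by simp
        rw [this] at h2
        nlinarith [sq_nonneg (s - (x + mk h 0) 0)]
      rw [this]; simp
    push Not at hp
    set r := Real.sqrt (ε ^ 2 - (p - x 1) ^ 2) with hr
    have hr0 : 0 ≤ r := Real.sqrt_nonneg _
    have hr2 : r ^ 2 = ε ^ 2 - (p - x 1) ^ 2 := Real.sq_sqrt (by linarith)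
    have hJ : ∀ s, mk s p ∈ closedBall x ε ↔ s ∈ Icc (x 0 - r) (x 0 + r) := by
      intro s
      rw [mem_cb_iff _ _ _ hε, mem_Icc]
      constructor
      · intro h1
        have : (s - x 0) ^ 2 ≤ r ^ 2 := by rw [hr2]; linarith
        have := abs_le_of_sq_le_sq this hr0
        rw [abs_le] at this
        constructor <;> linarith [this.1, this.2]
      · rintro ⟨h1, h2⟩
        have : (s - x 0) ^ 2 ≤ r ^ 2 := by
          apply sq_le_sq'
          · linarith
          · linarith
        rw [hr2] at this; linarith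
    have hJ' : ∀ s, mk s p ∈ closedBall (x + mk h 0) ε ↔ s ∈ Icc (x 0 + h - r) (x 0 + h + r) := by
      intro s
      rw [mem_cb_iff _ _ _ hε, mem_Icc]
      have e0 : (x + mk h 0) 0 = x 0 + h := by simp
      have e1 : (x + mk h 0) 1 = x 1 := by simp
      rw [e0, e1]
      constructor
      · intro h1
        have : (s - (x 0 + h)) ^ 2 ≤ r ^ 2 := by rw [hr2]; linarith
        have := abs_le_of_sq_le_sq this hr0
        rw [abs_le] at this
        constructor <;> linarith [this.1, this.2]
      · rintro ⟨h1, h2⟩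
        have : (s - (x 0 + h)) ^ 2 ≤ r ^ 2 := by
          apply sq_le_sq'
          · linarith
          · linarith
        rw [hr2] at this; linarith
    by_cases hpF : p ∈ π '' F
    · rw [indicator_of_mem hpF]
      have hsub : {s : ℝ | mk s p ∈ S ∩ closedBall (x + mk h 0) ε}
          ⊆ {s : ℝ | mk s p ∈ S ∩ closedBall x ε} ∪ Ioc (x 0 + r) (x 0 + r + h) := by
        rintro s ⟨h1, h2⟩
        rw [hJ'] at h2
        by_cases h3 : s ≤ x 0 + r
        · left
          refine ⟨h1, ?_⟩
          rw [hJ]
          exact ⟨by linarith [h2.1], h3⟩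
        · right
          push Not at h3
          exact ⟨h3, by linarith [h2.2]⟩
      calc volume {s : ℝ | mk s p ∈ S ∩ closedBall (x + mk h 0) ε}
          ≤ volume ({s : ℝ | mk s p ∈ S ∩ closedBall x ε} ∪ Ioc (x 0 + r) (x 0 + r + h)) :=
            measure_mono hsub
        _ ≤ volume {s : ℝ | mk s p ∈ S ∩ closedBall x ε} + volume (Ioc (x 0 + r) (x 0 + r + h)) :=
            measure_union_le _ _
        _ = _ := by
            rw [Real.volume_Ioc]; congr 2; ring
    · rw [indicator_of_notMem hpF, add_zero]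
      -- the segment avoids the frontier
      set I := Icc (x 0 - r) (x 0 + r + h) with hI
      have hseg : ∀ s ∈ I, mk s p ∉ frontier S := by
        intro s hs hfr
        apply hpF
        refine ⟨mk s p, ⟨hfr, ?_⟩, rfl⟩
        rw [mem_cb_iff _ _ _ (by linarith)]
        rw [hI, mem_Icc] at hs
        have hrε : r ≤ ε := by
          apply abs_le_of_sq_le_sq' _ hε |>.2
          rw [hr2]; nlinarith [sq_nonneg (p - x 1)]
        rcases le_total s (x 0) with hsx | hsx
        · have : (s - x 0) ^ 2 ≤ r ^ 2 := sq_le_sq' (by linarith [hs.1]) (by linarith)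
          nlinarith
        · have : (s - x 0) ^ 2 ≤ (r + h) ^ 2 := sq_le_sq' (by linarith [hs.1]) (by linarith [hs.2])
          nlinarith
      have hcont : Continuous (fun s : ℝ => mk s p) :=
        continuous_mk.comp (Continuous.prodMk_left p)
      have hpre : IsPreconnected ((fun s : ℝ => mk s p) '' I) :=
        isPreconnected_Icc.image _ hcont.continuousOn
      have hdich : (∀ s ∈ I, mk s p ∈ S) ∨ (∀ s ∈ I, mk s p ∉ S) := by
        by_contra hcon
        push Not at hcon
        obtain ⟨⟨a, ha, haS⟩, ⟨b, hb, hbS⟩⟩ := hcon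
        have hbI : mk b p ∈ interior S := by
          by_contra hni
          exact hseg b hb ⟨subset_closure hbS, hni⟩
        have hcov : (fun s : ℝ => mk s p) '' I ⊆ interior S ∪ Sᶜ := by
          rintro y ⟨c, hc, rfl⟩
          by_cases hcS : mk c p ∈ S
          · left
            by_contra hni
            exact hseg c hc ⟨subset_closure hcS, hni⟩
          · right; exact hcS
        obtain ⟨y, _, hy1, hy2⟩ := hpre (interior S) Sᶜ isOpen_interior hS.isOpen_compl hcov
          ⟨mk b p, ⟨b, hb, rfl⟩, hbI⟩ ⟨mk a p, ⟨a, ha, rfl⟩, haS⟩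
        exact hy2 (interior_subset hy1)
      rcases hdich with hall | hnone
      · have e1 : {s : ℝ | mk s p ∈ S ∩ closedBall (x + mk h 0) ε}
            = Icc (x 0 + h - r) (x 0 + h + r) := by
          ext s
          constructor
          · rintro ⟨_, h2⟩; exact (hJ' s).1 h2
          · intro hs
            exact ⟨hall s ⟨by linarith [hs.1], by linarith [hs.2]⟩, (hJ' s).2 hs⟩
        have e2 : {s : ℝ | mk s p ∈ S ∩ closedBall x ε}
            = Icc (x 0 - r) (x 0 + r) := by
          ext s
          constructor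
          · rintro ⟨_, h2⟩; exact (hJ s).1 h2
          · intro hs
            exact ⟨hall s ⟨by linarith [hs.1], by linarith [hs.2]⟩, (hJ s).2 hs⟩
        rw [e1, e2, Real.volume_Icc, Real.volume_Icc]
        apply le_of_eq; congr 1; ring
      · have e1 : {s : ℝ | mk s p ∈ S ∩ closedBall (x + mk h 0) ε} = ∅ := by
          apply Set.eq_empty_of_forall_notMem
          rintro s ⟨h1, h2⟩
          have := (hJ' s).1 h2
          exact hnone s ⟨by linarith [this.1], by linarith [this.2]⟩ h1
        rw [e1]; simp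
  rw [volume_eq _ (hS.measurableSet.inter measurableSet_closedBall),
    volume_eq _ (hS.measurableSet.inter measurableSet_closedBall)]
  calc ∫⁻ p : ℝ, volume {s : ℝ | mk s p ∈ S ∩ closedBall (x + mk h 0) ε}
      ≤ ∫⁻ p : ℝ, (volume {s : ℝ | mk s p ∈ S ∩ closedBall x ε}
        + (π '' F).indicator (fun _ => ENNReal.ofReal h) p) := lintegral_mono key
    _ = (∫⁻ p : ℝ, volume {s : ℝ | mk s p ∈ S ∩ closedBall x ε})
        + ∫⁻ p : ℝ, (π '' F).indicator (fun _ => ENNReal.ofReal h) p := by
        rw [lintegral_add_right]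
        exact measurable_const.indicator hπF.measurableSet
    _ = (∫⁻ p : ℝ, volume {s : ℝ | mk s p ∈ S ∩ closedBall x ε})
        + ENNReal.ofReal h * volume (π '' F) := by
        rw [lintegral_indicator_const hπF.measurableSet]
    _ ≤ _ := by gcongr

/-- Shift of a ball in any direction. -/
lemma shift_le' (S : Set E2) (hS : IsClosed S) (x v : E2) (ε : ℝ) (hε : 0 ≤ ε) :
    volume (S ∩ closedBall (x + v) ε) ≤ volume (S ∩ closedBall x ε)
      + ENNReal.ofReal ‖v‖ * μH[1] (frontier S ∩ closedBall x (ε + ‖v‖)) := by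
  set u : E2 := mk ‖v‖ 0 with hu
  have hnorm : ‖v‖ = ‖u‖ := by
    have : ‖u‖ ^ 2 = ‖v‖ ^ 2 := by rw [norm_sq]; simp [hu]
    exact ((sq_eq_sq₀ (norm_nonneg _) (norm_nonneg _)).1 this).symm
  set L : E2 ≃ₗᵢ[ℝ] E2 := Submodule.reflection (Submodule.span ℝ {v - u})ᗮ with hL
  have hLv : L v = u := Submodule.reflection_sub hnorm
  have hball : ∀ (y : E2) (r : ℝ), L '' (closedBall y r) = closedBall (L y) r := by
    intro y r
    exact L.image_closedBall y r
  have hvol : ∀ A : Set E2, volume (L '' A) = volume A := by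
    intro A
    have := L.measurePreserving.measure_preimage_equiv (f := L.toHomeomorph.toMeasurableEquiv) (L '' A)
    have h2 : (L.toHomeomorph.toMeasurableEquiv) ⁻¹' (L '' A) = A :=
      Set.preimage_image_eq A L.injective
    rw [h2] at this
    exact this.symm
  have hH : ∀ A : Set E2, μH[1] (L '' A) = μH[1] A := fun A =>
    L.toIsometryEquiv.hausdorffMeasure_image 1 A
  have hfr : frontier (L '' S) = L '' frontier S := (L.toHomeomorph.image_frontier S).symm
  have hcl : IsClosed (L '' S) := L.toHomeomorph.isClosed_image.2 hS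
  have h := shift_le (L '' S) hcl (L x) ε ‖v‖ hε (norm_nonneg _)
  rw [← hu, ← hLv, ← map_add, ← hball, ← hball, ← image_inter L.injective,
    ← image_inter L.injective, hfr, ← hball, ← image_inter L.injective, hvol, hvol, hH] at h
  exact h

end Pool.Agent.H924R3
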