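import Pool.Agent.H924R3.Cheeger

set_option autoImplicit false
open MeasureTheory Set Metric Filter Topology
open scoped Pointwise ENNReal

namespace Pool.Agent.H924R3

lemma vol_image (f : E2 ≃ᵢ E2) (A : Set E2) : volume (f '' A) = volume A := by
  rw [← EuclideanSpace.euclideanHausdorffMeasure_eq_volume 2]
  exact f.isometry.euclideanHausdorffMeasure_image A

lemma w_concave {p q a b : ℝ} (hp : |p| ≤ 1) (hq : |q| ≤ 1) (ha : 0 ≤ a) (hb : 0 ≤ b)
    (hab : a + b = 1) : a * w p + b * w q ≤ w (a * p + b * q) := by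
  apply Real.le_sqrt_of_sq_le
  have h1 := w_sq hp
  have h2 := w_sq hq
  have h3 : (w p * w q + p * q) ≤ 1 := by
    nlinarith [sq_nonneg (w p - w q), sq_nonneg (p - q)]
  have h4 : (a * w p + b * w q) ^ 2 + (a * p + b * q) ^ 2
      = a ^ 2 * (w p ^ 2 + p ^ 2) + b ^ 2 * (w q ^ 2 + q ^ 2) + 2 * (a * b) * (w p * w q + p * q) := by
    ring
  rw [h1, h2] at h4
  have h5 : 0 ≤ a * b := mul_nonneg ha hb
  have h6 : (a + b) ^ 2 = 1 := by rw [hab]; norm_num
  nlinarith

lemma St_convex : Convex ℝ St := by
  rintro x ⟨hx1, hx0⟩ y ⟨hy1, hy0⟩ a b ha hb hab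
  have e0 : (a • x + b • y) 0 = a * x 0 + b * y 0 := by simp
  have e1 : (a • x + b • y) 1 = a * x 1 + b * y 1 := by simp
  refine ⟨?_, ?_⟩
  · rw [e1]
    calc |a * x 1 + b * y 1| ≤ |a * x 1| + |b * y 1| := abs_add_le _ _
      _ = a * |x 1| + b * |y 1| := by rw [abs_mul, abs_mul, abs_of_nonneg ha, abs_of_nonneg hb]
      _ ≤ a * 1 + b * 1 := by gcongr
      _ = 1 := by linarith
  · rw [e0, e1]
    calc |a * x 0 + b * y 0| ≤ |a * x 0| + |b * y 0| := abs_add_le _ _
      _ = a * |x 0| + b * |y 0| := by rw [abs_mul, abs_mul, abs_of_nonneg ha, abs_of_nonneg hb]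
      _ ≤ a * (1 + w (x 1)) + b * (1 + w (y 1)) := by gcongr
      _ = 1 + (a * w (x 1) + b * w (y 1)) := by linear_combination hab
      _ ≤ 1 + w (a * x 1 + b * y 1) := by
          have := w_concave hx1 hy1 ha hb hab
          linarith

lemma ball_subset_St : closedBall (0 : E2) 1 ⊆ St := by
  intro x hx
  rw [mem_closedBall, dist_zero_right] at hx
  have h := norm_sq x
  have h1 : ‖x‖ ^ 2 ≤ 1 := by nlinarith [norm_nonneg x]
  refine ⟨?_, ?_⟩
  · apply abs_le_of_sq_le_sq' _ (by norm_num) |> abs_le.2
    nlinarith [sq_nonneg (x 0)]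
  · have : |x 0| ≤ 1 := by
      apply abs_le_of_sq_le_sq' _ (by norm_num) |> abs_le.2
      nlinarith [sq_nonneg (x 1)]
    linarith [w_nonneg (x 1)]

lemma St_interior : (interior St).Nonempty := by
  refine ⟨0, ?_⟩
  rw [mem_interior_iff_mem_nhds]
  exact Filter.mem_of_superset (closedBall_mem_nhds _ one_pos) ball_subset_St

lemma lam_pos : 0 < lam := by unfold lam; linarith [al_lt_one]

/-- The Cheeger inequality for all closed subsets of the stadium. -/
lemma cheeger {S : Set E2} (hS : IsClosed S) (hSt : S ⊆ St) :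
    ENNReal.ofReal lam * volume S ≤ μH[1] (frontier S) := by
  by_cases hF : μH[1] (frontier S) = ⊤
  · rw [hF]; exact le_top
  have hSc : IsCompact S := St_compact.of_isClosed_subset hS hSt
  have hvfin : volume S ≠ ⊤ := hSc.measure_lt_top.ne
  -- scaled sets
  have key : ∀ ρ : ℝ, 0 < ρ → ρ < 1 →
      lam * ρ * (volume S).toReal ≤ (μH[1] (frontier S)).toReal := by
    intro ρ hρ hρ1
    have hne : ρ ≠ 0 := hρ.ne'
    have hfr : frontier (ρ • S) = ρ • frontier S := by
      have := (Homeomorph.smulOfNeZero ρ hne : E2 ≃ₜ E2).image_frontier S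
      exact this.symm
    have hHs : μH[1] (frontier (ρ • S)) = ENNReal.ofReal ρ * μH[1] (frontier S) := by
      rw [hfr, Measure.hausdorffMeasure_smul₀ (by norm_num) hne]
      rw [ENNReal.smul_def, smul_eq_mul]
      congr 1
      rw [NNReal.rpow_one]
      rw [ENNReal.ofReal]
      congr 1
      ext
      rw [coe_nnnorm, Real.norm_eq_abs, abs_of_pos hρ, Real.coe_toNNReal _ hρ.le]
    have hVs : (volume (ρ • S)).toReal = ρ ^ 2 * (volume S).toReal := by
      rw [Measure.addHaar_smul, ENNReal.toReal_mul, ENNReal.toReal_ofReal (abs_nonneg _)]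
      simp [abs_of_pos hρ]
    have hin : ∀ y ∈ ρ • S, closedBall y (1 - ρ) ⊆ St := by
      rintro y ⟨z, hz, rfl⟩ u hu
      have hu' : (1 - ρ)⁻¹ • (u - ρ • z) ∈ St := by
        apply ball_subset_St
        rw [mem_closedBall, dist_zero_right, norm_smul, norm_inv, Real.norm_eq_abs,
          abs_of_pos (by linarith : 0 < 1 - ρ), inv_mul_le_iff₀ (by linarith)]
        rw [mem_closedBall, dist_eq_norm] at hu
        simpa using hu
      have := St_convex (hSt hz) hu' hρ.le (by linarith : 0 ≤ 1 - ρ) (by ring)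
      have hne2 : (1 - ρ) ≠ 0 := by linarith
      rw [smul_smul, mul_inv_cancel₀ hne2, one_smul, add_sub_cancel] at this
      exact this
    have hFs : μH[1] (frontier (ρ • S)) ≠ ⊤ := by
      rw [hHs]; exact ENNReal.mul_ne_top ENNReal.ofReal_ne_top hF
    have h := cheeger_inside (hSc.smul ρ) (by linarith : 0 < 1 - ρ) hin hFs
    rw [hVs, hHs, ENNReal.toReal_mul, ENNReal.toReal_ofReal hρ.le] at h
    have : ρ * (lam * ρ * (volume S).toReal) ≤ ρ * (μH[1] (frontier S)).toReal := by
      nlinarith
    exact le_of_mul_le_mul_left this hρ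
  have hreal : lam * (volume S).toReal ≤ (μH[1] (frontier S)).toReal := by
    have h2 : Tendsto (fun ρ : ℝ => lam * ρ * (volume S).toReal) (𝓝[<] 1)
        (𝓝 (lam * 1 * (volume S).toReal)) := by
      apply Tendsto.mono_left _ nhdsWithin_le_nhds
      apply Continuous.tendsto
      fun_prop
    rw [mul_one] at h2
    apply le_of_tendsto h2
    have : ∀ᶠ ρ : ℝ in 𝓝[<] 1, ρ ∈ Ioo 0 1 := Ioo_mem_nhdsLT one_pos
    filter_upwards [this] with ρ hρ
    exact key ρ hρ.1 hρ.2
  rw [← ENNReal.ofReal_toReal hvfin, ← ENNReal.ofReal_mul lam_pos.le, ← ENNReal.ofReal_toReal hF]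
  exact ENNReal.ofReal_le_ofReal hreal

/-- Area of the stadium. -/
lemma St_area : volume St = ENNReal.ofReal (Real.pi + 4) := by
  rw [volume_eq _ St_closed.measurableSet]
  have h1 : ∀ p : ℝ, volume {s : ℝ | mk s p ∈ St}
      = (Icc (-1 : ℝ) 1).indicator (fun p => ENNReal.ofReal (2 * (1 + w p))) p := by
    intro p
    by_cases hp : p ∈ Icc (-1 : ℝ) 1
    · rw [indicator_of_mem hp]
      have : {s : ℝ | mk s p ∈ St} = Icc (-(1 + w p)) (1 + w p) := by
        ext s
        constructor
        · rintro ⟨_, h⟩; exact abs_le.1 h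
        · intro h; exact ⟨abs_le.2 hp, abs_le.2 h⟩
      rw [this, Real.volume_Icc]; congr 1; ring
    · rw [indicator_of_notMem hp]
      have : {s : ℝ | mk s p ∈ St} = ∅ := by
        apply Set.eq_empty_of_forall_notMem
        rintro s ⟨h, _⟩
        exact hp (abs_le.1 h)
      rw [this]; simp
  simp only [h1]
  rw [lintegral_indicator measurableSet_Icc]
  have hc : Continuous (fun p => 2 * (1 + w p)) := by
    have := continuous_w
    fun_prop
  rw [← ofReal_integral_eq_lintegral_ofReal]
  · congr 1
    rw [integral_Icc_eq_integral_Ioc, ← intervalIntegral.integral_of_le (by norm_num)]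
    rw [intervalIntegral.integral_const_mul, intervalIntegral.integral_add (by simp)
      (continuous_w.intervalIntegrable _ _)]
    have : ∫ t in (-1 : ℝ)..1, w t = Real.pi / 2 := integral_sqrt_one_sub_sq
    rw [this, intervalIntegral.integral_const]
    simp; ring
  · exact hc.integrableOn_Icc
  · filter_upwards with p
    have := w_nonneg p
    positivity

lemma arc_le (c : ℝ) (σ : ℝ) (hσ : σ ^ 2 = 1) :
    μH[1] ((fun φ : ℝ => mk (c + σ * Real.cos φ) (Real.sin φ)) '' Icc (-(Real.pi / 2)) (Real.pi / 2))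
      ≤ ENNReal.ofReal Real.pi := by
  have hl : LipschitzWith 1 (fun φ : ℝ => mk (c + σ * Real.cos φ) (Real.sin φ)) := by
    apply LipschitzWith.of_dist_le_mul
    intro a b
    rw [dist_eq_norm, mk_sub, Real.dist_eq, NNReal.coe_one, one_mul]
    apply abs_le_of_sq_le_sq' _ (abs_nonneg _) |>.2
    rw [norm_mk, sq_abs]
    have h1 := Real.one_sub_sq_div_two_le_cos (x := a - b)
    rw [Real.cos_sub] at h1
    have ha := Real.sin_sq_add_cos_sq a
    have hb := Real.sin_sq_add_cos_sq b
    have e : (c + σ * Real.cos a - (c + σ * Real.cos b)) ^ 2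
        = σ ^ 2 * (Real.cos a - Real.cos b) ^ 2 := by ring
    rw [e, hσ]
    nlinarith
  have h := hl.hausdorffMeasure_image_le (d := 1) (by norm_num) (Icc (-(Real.pi / 2)) (Real.pi / 2))
  refine h.trans ?_
  rw [hausdorffMeasure_real, Real.volume_Icc]
  simp only [ENNReal.coe_one, ENNReal.one_rpow, one_mul]
  apply ENNReal.ofReal_le_ofReal
  linarith

lemma seg_le (c : ℝ) : μH[1] ((fun s : ℝ => mk s c) '' Icc (-1) 1) ≤ ENNReal.ofReal 2 := by
  have h := (iso0 c).lipschitz.hausdorffMeasure_image_le (d := 1) (by norm_num) (Icc (-1) 1)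
  refine h.trans ?_
  rw [hausdorffMeasure_real, Real.volume_Icc]
  simp only [ENNReal.coe_one, ENNReal.one_rpow, one_mul]
  apply ENNReal.ofReal_le_ofReal
  norm_num

lemma St_frontier_subset : frontier St ⊆
    (((fun s : ℝ => mk s 1) '' Icc (-1) 1) ∪ ((fun s : ℝ => mk s (-1)) '' Icc (-1) 1)) ∪
    (((fun φ : ℝ => mk (1 + 1 * Real.cos φ) (Real.sin φ)) '' Icc (-(Real.pi / 2)) (Real.pi / 2)) ∪
     ((fun φ : ℝ => mk (-1 + (-1) * Real.cos φ) (Real.sin φ)) ''
        Icc (-(Real.pi / 2)) (Real.pi / 2))) := by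
  intro x hx
  have hxS : x ∈ St := St_closed.frontier_subset hx
  have hni : x ∉ interior St := hx.2
  have h0c : Continuous (fun x : E2 => x 0) := by fun_prop
  have h1c : Continuous (fun x : E2 => x 1) := by fun_prop
  have hwc : Continuous (fun x : E2 => w (x 1)) := continuous_w.comp h1c
  have hor : |x 1| = 1 ∨ |x 0| = 1 + w (x 1) := by
    by_contra hcon
    push Not at hcon
    apply hni
    have hU : IsOpen ({y : E2 | |y 1| < 1} ∩ {y : E2 | |y 0| < 1 + w (y 1)}) := by
      apply IsOpen.inter
      · exact isOpen_lt h1c.abs continuous_const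
      · exact isOpen_lt h0c.abs (continuous_const.add hwc)
    apply interior_maximal _ hU ⟨lt_of_le_of_ne hxS.1 hcon.1, lt_of_le_of_ne hxS.2 hcon.2⟩
    rintro y ⟨h1, h2⟩
    exact ⟨le_of_lt h1, le_of_lt h2⟩
  rcases hor with h | h
  · left
    have hw0 : w (x 1) = 0 := w_eq_zero h.ge
    have hx0 : |x 0| ≤ 1 := by have := hxS.2; rw [hw0] at this; simpa using this
    rcases eq_or_eq_neg_of_abs_eq h with h1 | h1
    · left
      refine ⟨x 0, abs_le.1 hx0, ?_⟩
      simp only; rw [← h1]; exact mk_eta x
    · right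
      refine ⟨x 0, abs_le.1 hx0, ?_⟩
      simp only; rw [← h1]; exact mk_eta x
  · right
    have hx1 := abs_le.1 hxS.1
    have hsin : Real.sin (Real.arcsin (x 1)) = x 1 := Real.sin_arcsin hx1.1 hx1.2
    have hcos : Real.cos (Real.arcsin (x 1)) = w (x 1) := Real.cos_arcsin (x 1)
    have hmem : Real.arcsin (x 1) ∈ Icc (-(Real.pi / 2)) (Real.pi / 2) := Real.arcsin_mem_Icc _
    rcases le_total 0 (x 0) with h2 | h2
    · left
      refine ⟨Real.arcsin (x 1), hmem, ?_⟩
      simp only [hsin, hcos]
      rw [abs_of_nonneg h2] at h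
      rw [one_mul, ← h]; exact mk_eta x
    · right
      refine ⟨Real.arcsin (x 1), hmem, ?_⟩
      simp only [hsin, hcos]
      rw [abs_of_nonpos h2] at h
      have : -1 + (-1) * w (x 1) = x 0 := by linarith
      rw [this]; exact mk_eta x

lemma St_perimeter_le : μH[1] (frontier St) ≤ ENNReal.ofReal lam * volume St := by
  have h1 : μH[1] (frontier St) ≤ ENNReal.ofReal (2 * Real.pi + 4) := by
    have hpi := Real.pi_pos
    calc μH[1] (frontier St) ≤ _ := measure_mono St_frontier_subset
      _ ≤ (ENNReal.ofReal 2 + ENNReal.ofReal 2) + (ENNReal.ofReal Real.pi + ENNReal.ofReal Real.pi) := by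
          refine (measure_union_le _ _).trans ?_
          apply add_le_add
          · exact (measure_union_le _ _).trans (add_le_add (seg_le 1) (seg_le (-1)))
          · exact (measure_union_le _ _).trans
              (add_le_add (arc_le 1 1 (by norm_num)) (arc_le (-1) (-1) (by norm_num)))
      _ = ENNReal.ofReal (2 * Real.pi + 4) := by
          rw [← ENNReal.ofReal_add (by norm_num) (by norm_num),
            ← ENNReal.ofReal_add hpi.le hpi.le, ← ENNReal.ofReal_add (by norm_num) (by linarith)]
          congr 1; ring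
  refine h1.trans ?_
  rw [St_area, ← ENNReal.ofReal_mul lam_pos.le]
  apply ENNReal.ofReal_le_ofReal
  unfold lam al
  have h0 : Real.pi + 4 ≠ 0 := by positivity
  apply le_of_eq
  field_simp
  ring

lemma St_ne_ball (x : E2) (r : ℝ) : St ≠ closedBall x r := by
  intro h
  have hw0 : w 0 = 1 := by unfold w; simp
  have m1 : mk 2 0 ∈ St := by
    refine ⟨by simp, ?_⟩
    simp [hw0]; norm_num
  have m2 : mk (-2) 0 ∈ St := by
    refine ⟨by simp, ?_⟩
    simp [hw0]; norm_num
  rw [h, mem_closedBall] at m1 m2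
  have hd : dist (mk 2 0) (mk (-2) 0) = 4 := by
    rw [(iso0 0).dist_eq, Real.dist_eq]; norm_num
  have hr : 2 ≤ r := by
    have := dist_triangle_right (mk 2 0) (mk (-2) 0) x
    linarith
  have m3 : x + mk 0 r ∈ St := by
    rw [h, mem_closedBall, dist_eq_norm, add_sub_cancel_left]
    have : ‖mk 0 r‖ ^ 2 = r ^ 2 := by rw [norm_mk]; ring
    exact ((sq_eq_sq₀ (norm_nonneg _) (by linarith)).1 this).le
  have m4 : x + mk 0 (-r) ∈ St := by
    rw [h, mem_closedBall, dist_eq_norm, add_sub_cancel_left]
    have : ‖mk 0 (-r)‖ ^ 2 = r ^ 2 := by rw [norm_mk]; ring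
    exact ((sq_eq_sq₀ (norm_nonneg _) (by linarith)).1 this).le
  have h3 := m3.1
  have h4 := m4.1
  simp at h3 h4
  rw [abs_le] at h3 h4
  linarith [h3.1, h3.2, h4.1, h4.2]

/-- Submodularity of the measure of frontiers of closed sets. -/
lemma frontier_submodular (μ : Measure E2) {A C : Set E2} (hA : IsClosed A) (hC : IsClosed C) :
    μ (frontier (A ∪ C)) + μ (frontier (A ∩ C)) ≤ μ (frontier A) + μ (frontier C) := by
  have hsub1 : frontier (A ∪ C) ∪ frontier (A ∩ C) ⊆ frontier A ∪ frontier C := by
    apply union_subset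
    · refine (frontier_union_subset A C).trans ?_
      exact union_subset_union inter_subset_left inter_subset_right
    · refine (frontier_inter_subset A C).trans ?_
      exact union_subset_union inter_subset_left inter_subset_right
  have hsub2 : frontier (A ∪ C) ∩ frontier (A ∩ C) ⊆ frontier A ∩ frontier C := by
    rintro x ⟨h1, h2⟩
    have hx : x ∈ A ∩ C := (hA.inter hC).frontier_subset h2
    refine ⟨⟨subset_closure hx.1, fun hi => h1.2 ?_⟩, ⟨subset_closure hx.2, fun hi => h1.2 ?_⟩⟩
    · exact interior_mono subset_union_left hi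
    · exact interior_mono subset_union_right hi
  rw [← measure_union_add_inter (frontier (A ∪ C)) isClosed_frontier.measurableSet,
    ← measure_union_add_inter (frontier A) isClosed_frontier.measurableSet]
  exact add_le_add (measure_mono hsub1) (measure_mono hsub2)

lemma union_bound {ι : Type*} [DecidableEq ι] (f : ι → (E2 ≃ᵢ E2)) (s : Finset ι) :
    μH[1] (frontier (⋃ i ∈ s, (f i) '' St))
      ≤ ENNReal.ofReal lam * volume (⋃ i ∈ s, (f i) '' St) := by
  induction s using Finset.induction_on with
  | empty => simp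
  | insert a s ha ih =>
    rw [Finset.set_biUnion_insert]
    set U := ⋃ i ∈ s, (f i) '' St with hU
    set C := (f a) '' St with hC
    have hCc : IsCompact C := St_compact.image (f a).continuous
    have hUc : IsCompact U := s.isCompact_biUnion (fun i _ => St_compact.image (f i).continuous)
    have hCcl := hCc.isClosed
    have hUcl := hUc.isClosed
    have hsm := frontier_submodular (μH[1]) hCcl hUcl
    -- Cheeger for the intersection
    have hint : ENNReal.ofReal lam * volume (C ∩ U) ≤ μH[1] (frontier (C ∩ U)) := by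
      set S := (f a).symm '' (C ∩ U) with hS
      have hScl : IsClosed S := ((hCc.inter hUc).image (f a).symm.continuous).isClosed
      have hSsub : S ⊆ St := by
        rintro y ⟨z, ⟨⟨u, hu, rfl⟩, _⟩, rfl⟩
        simpa using hu
      have h := cheeger hScl hSsub
      have hfr : frontier S = (f a).symm '' frontier (C ∩ U) :=
        ((f a).symm.toHomeomorph.image_frontier (C ∩ U)).symm
      rw [hfr, IsometryEquiv.hausdorffMeasure_image, hS, vol_image] at h
      exact h
    have hCp : μH[1] (frontier C) ≤ ENNReal.ofReal lam * volume C := by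
      have hfr : frontier C = (f a) '' frontier St :=
        ((f a).toHomeomorph.image_frontier St).symm
      rw [hfr, IsometryEquiv.hausdorffMeasure_image, hC, vol_image]
      exact St_perimeter_le
    have hvol : volume (C ∪ U) + volume (C ∩ U) = volume C + volume U :=
      measure_union_add_inter C hUcl.measurableSet
    have hfin : ENNReal.ofReal lam * volume (C ∩ U) ≠ ⊤ :=
      ENNReal.mul_ne_top ENNReal.ofReal_ne_top (hCc.inter hUc).measure_lt_top.ne
    have htot : μH[1] (frontier (C ∪ U)) + ENNReal.ofReal lam * volume (C ∩ U)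
        ≤ ENNReal.ofReal lam * volume (C ∪ U) + ENNReal.ofReal lam * volume (C ∩ U) := by
      calc μH[1] (frontier (C ∪ U)) + ENNReal.ofReal lam * volume (C ∩ U)
          ≤ μH[1] (frontier (C ∪ U)) + μH[1] (frontier (C ∩ U)) := by gcongr
        _ ≤ μH[1] (frontier C) + μH[1] (frontier U) := hsm
        _ ≤ ENNReal.ofReal lam * volume C + ENNReal.ofReal lam * volume U := add_le_add hCp ih
        _ = ENNReal.ofReal lam * (volume C + volume U) := by rw [mul_add]
        _ = _ := by rw [← hvol, mul_add]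
    exact (ENNReal.add_le_add_iff_right hfin).1 htot

/-- The stadium maximises the ratio of perimeter to area among finite unions of congruent copies. -/
theorem stadium_self_maximising (n : ℕ) (f : Fin n → (E2 ≃ᵢ E2)) :
    μH[1] (frontier (⋃ i, (f i) '' St)) * volume St
      ≤ μH[1] (frontier St) * volume (⋃ i, (f i) '' St) := by
  have h := union_bound f Finset.univ
  simp only [Finset.mem_univ, iUnion_true] at h
  have h2 := cheeger St_closed le_rfl
  calc μH[1] (frontier (⋃ i, (f i) '' St)) * volume St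
      ≤ (ENNReal.ofReal lam * volume (⋃ i, (f i) '' St)) * volume St := by gcongr
    _ = (ENNReal.ofReal lam * volume St) * volume (⋃ i, (f i) '' St) := by ring
    _ ≤ _ := by gcongr

end Pool.Agent.H924R3
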